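import Pool.Agent.H369.SM.Stm

/-! SM11/SM13: the smoothing theorem, from the basis, the normality and the two limits. -/

set_option autoImplicit false

namespace Pool.Agent.H338.SM

open Pool.Agent.TH549.CK Pool.Agent.H369.SM TensorProduct

/-- dual functionals to a linearly independent family -/
theorem exists_dual {F V ι : Type} [Field F] [AddCommGroup V] [Module F V] [DecidableEq ι]
    {v : ι → V} (h : LinearIndependent F v) :
    ∃ φ : ι → V →ₗ[F] F, ∀ i j, φ i (v j) = if j = i then 1 else 0 := by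
  obtain ⟨g, hg⟩ := LinearMap.exists_leftInverse_of_injective (Finsupp.linearCombination F v)
    (LinearMap.ker_eq_bot.2 h)
  refine ⟨fun i => (Finsupp.lapply i).comp g, fun i j => ?_⟩
  have h1 : g (v j) = Finsupp.single j 1 := by
    have h2 := LinearMap.congr_fun hg (Finsupp.single j 1)
    rw [LinearMap.comp_apply, Finsupp.linearCombination_single, one_smul] at h2
    exact h2
  rw [LinearMap.comp_apply, h1, Finsupp.lapply_apply, Finsupp.single_apply]

section
variable {F 𝕂 P : Type} [Field F] [Field 𝕂] [Algebra F 𝕂]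

/-- the zeroth coefficient lies in the Riemann-Roch space -/
theorem coeff0_mem {C : Crv F 𝕂 P} {m : ℕ} {N : Nodes P m} {n : ℕ} {f : PowerSeries 𝕂}
    (hf : f ∈ MM C N) (hb : Bd C N n f) : PowerSeries.coeff 0 f ∈ C.L (nO N n) := by
  classical
  have hEc : ∀ x, PowerSeries.coeff 0 (C.Ec x f) = C.E x (PowerSeries.coeff 0 f) := fun x => by
    rw [Crv.Ec, PowerSeries.coeff_map]
  have hEv : ∀ x, PowerSeries.coeff 0 (C.EvL x f) = C.E x (PowerSeries.coeff 0 f) := fun x => by
    rw [Crv.EvL, RingHom.comp_apply, PowerSeries.coeff_rescale, PowerSeries.coeff_map, pow_zero,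
      one_mul]
  rw [Crv.mem_L]
  intro x k hk
  by_cases hx : x = N.o
  · subst hx
    rw [nO, Finsupp.single_eq_same] at hk
    exact hb 0 k hk
  · have hk' : k < 0 := by
      rw [nO, Finsupp.single_apply, if_neg (fun h => hx h.symm), neg_zero] at hk
      exact hk
    by_cases hp : ∃ i, x = N.p i
    · obtain ⟨i, rfl⟩ := hp
      obtain ⟨y, hy, -⟩ := hf.2 i
      rw [← hEv, ← hy]
      exact P7.coeff_th y 0 k hk'
    · by_cases hq : ∃ i, x = N.q i
      · obtain ⟨i, rfl⟩ := hq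
        obtain ⟨y, -, hy⟩ := hf.2 i
        rw [← hEv, ← hy]
        exact P7.coeff_th _ 0 k hk'
      · obtain ⟨y, hy⟩ := hf.1 x hx (fun i h => hp ⟨i, h⟩) (fun i h => hq ⟨i, h⟩)
        rw [← hEc, ← hy]
        exact P7.coeff_th y 0 k hk'

/-- the limit -/
noncomputable def lim {r : ℕ} (v : Fin r → 𝕂) (c : Fin r → Fin r → F) : 𝕂 ⊗[F] 𝕂 :=
  ∑ x, ∑ y, c x y • (v x ⊗ₜ[F] v y)

theorem lim_ne_zero {r : ℕ} {v : Fin r → 𝕂} {c : Fin r → Fin r → F} (hli : LinearIndependent F v)
    {x₀ y₀ : Fin r} (h0 : c x₀ y₀ ≠ 0) : lim v c ≠ 0 := by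
  intro h
  obtain ⟨φ, hφ⟩ := exists_dual hli
  have h1 := congrArg (fun G => TensorProduct.lid F F (TensorProduct.map (φ x₀) (φ y₀) G)) h
  simp only [lim, map_sum, map_smul, TensorProduct.map_tmul, hφ, TensorProduct.lid_tmul,
    map_zero] at h1
  apply h0
  rw [Finset.sum_eq_single x₀, Finset.sum_eq_single y₀] at h1
  · simpa using h1
  · intro y _ hy
    rw [if_neg hy]
    simp
  · intro hy
    exact absurd (Finset.mem_univ _) hy
  · intro x _ hx
    refine Finset.sum_eq_zero fun y _ => ?_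
    rw [if_neg hx]
    simp
  · intro hx
    exact absurd (Finset.mem_univ _) hx

theorem lim_mem {r : ℕ} {v : Fin r → 𝕂} {c : Fin r → Fin r → F} {V : Submodule F 𝕂}
    (hv : ∀ x, v x ∈ V) : lim v c ∈ LinearMap.range (TensorProduct.map V.subtype V.subtype) := by
  refine ⟨∑ x, ∑ y, c x y • ((⟨v x, hv x⟩ : V) ⊗ₜ[F] (⟨v y, hv y⟩ : V)), ?_⟩
  simp only [lim, map_sum, map_smul, TensorProduct.map_tmul, Submodule.subtype_apply]

theorem sjE_lim (C : Crv F 𝕂 P) (z : P) (j : ℕ) {r : ℕ} (v : Fin r → 𝕂) (c : Fin r → Fin r → F) :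
    sjE C z j (lim v c) = ∑ x, ∑ y, HahnSeries.C (c x y) *
      LaurentSeries.hasseDeriv F j (C.E z (v x)) * C.E z (v y) := by
  unfold lim
  rw [map_sum]
  refine Finset.sum_congr rfl fun x _ => ?_
  rw [map_sum]
  refine Finset.sum_congr rfl fun y _ => ?_
  rw [map_smul, mul_assoc, HahnSeries.C_mul_eq_smul]
  rfl

theorem nn_lim (C : Crv F 𝕂 P) (z w : P) (a b : ℤ) {r : ℕ} (v : Fin r → 𝕂)
    (c : Fin r → Fin r → F) :
    nn C z w a b (lim v c) = ∑ x, ∑ y, c x y * (C.E z (v x)).coeff a * (C.E w (v y)).coeff b := by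
  unfold lim
  rw [map_sum]
  refine Finset.sum_congr rfl fun x _ => ?_
  rw [map_sum]
  refine Finset.sum_congr rfl fun y _ => ?_
  rw [map_smul, mul_assoc]
  rfl

end

/-- **SM13** (the smoothing theorem) -/
theorem final (h1 : S_basisRK) (h2 : S_normal) (h3 : S_FV) (h4 : S_nd) : S_SM := by
  intro F 𝕂 P _ _ _ _ C h hRR m N K _ _ _ Pr hPr
  refine ⟨⟨h2 F 𝕂 P C m N K, fun n hn => ?_⟩, ?_, fun n => ?_⟩
  · obtain ⟨r, e, B, -, -, -, hr⟩ := h1 F 𝕂 P C h hRR m N K n
    rw [Module.finrank_eq_card_basis B, Fintype.card_fin]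
    exact hr hn
  · intro n γ G hG0 hL hI
    obtain ⟨r, e, B, hBd, hBc, hli, -⟩ := h1 F 𝕂 P C h hRR m N K n
    obtain ⟨G', rfl⟩ := hL
    set k : Fin r × Fin r → K := fun p => (B.tensorProduct B).repr G' p with hk
    have hG' : G' = ∑ p : Fin r × Fin r, k p • (B p.1 ⊗ₜ[K] B p.2) := by
      conv_lhs => rw [← (B.tensorProduct B).sum_repr G']
      refine Finset.sum_congr rfl fun p _ => ?_
      rw [Module.Basis.tensorProduct_apply]
    have hne : ∃ p, k p ≠ 0 := by
      by_contra hc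
      push Not at hc
      apply hG0
      rw [hG']
      simp [hc]
    obtain ⟨c, o, ho, ⟨x₀, y₀⟩, h0⟩ := P14.exists_scale (F := F) K k hne
    have hsum : ∑ x, ∑ y, algebraMap (PowerSeries F) K (o (x, y)) •
        ((B x : RK K C N) ⊗ₜ[K] (B y : RK K C N)) ∈
        (KaehlerDifferential.ideal K (RK K C N)) ^ γ := by
      have h1 : ∑ x, ∑ y, algebraMap (PowerSeries F) K (o (x, y)) •
          ((B x : RK K C N) ⊗ₜ[K] (B y : RK K C N)) =
          c • (TensorProduct.map (Lp (RK K C N) n).subtype (Lp (RK K C N) n).subtype) G' := by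
        rw [hG', map_sum, Finset.smul_sum, Fintype.sum_prod_type]
        refine Finset.sum_congr rfl fun x _ => Finset.sum_congr rfl fun y _ => ?_
        rw [ho (x, y), map_smul, TensorProduct.map_tmul, smul_smul]
        rfl
      rw [h1]
      exact Submodule.smul_of_tower_mem _ c hI
    refine hPr n γ (lim (fun x => PowerSeries.coeff 0 (e x : PowerSeries 𝕂))
      (fun x y => PowerSeries.coeff 0 (o (x, y)))) (lim_ne_zero hli (x₀ := x₀) (y₀ := y₀) h0)
      (lim_mem fun x => coeff0_mem (e x).2.1 (hBd x)) (fun j hj => ?_) (fun i a b hab => ?_)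
    · rw [sjE_lim]
      exact h3 F 𝕂 P C m N K r e (fun x => (B x : RK K C N)) hBc (fun x y => o (x, y)) γ hsum j hj
    · have h5 := h4 F 𝕂 P C m N K r e (fun x => (B x : RK K C N)) hBc (fun x y => o (x, y)) γ hsum
        i a b hab
      rw [nn_lim, nn_lim]
      exact h5
  · obtain ⟨r, e, B, -⟩ := h1 F 𝕂 P C h hRR m N K n
    exact Module.Finite.of_basis B

end Pool.Agent.H338.SM
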